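import Pool.Agent.Lib.DS.Iface
import Pool.Agent.Lib.DN.IfaceC

/-!
# Part C (theta series and their values) for ALL imaginary quadratic fields and a general modulus (author helper33)

`S_C1 - S_C4`, `S_C6 - S_C8` of `DN/IfaceC.lean` with `[SqN n t]`, the modulus `F` (`0 < F`, `30 ∣ F`) in place of `2 f` and the
level `N` in place of `4 M`: `N` is any positive multiple of `D F² (N m ∏ N b)³`; no oddness. Users: DR (`F = 2 f`), DM
(`F = 3 f`, `20 ∣ f`). Definitions `Tc`, `ThM`, `hM`, `etaM`, `gO`, `rO`: `DN/Defs.lean`; `vN`, `cM`: `DN/IfaceC.lean`.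
Outside of this namespace write `DS.S_C1` etc. The structures are `FMg`, `FBg`, `IsLg` (`g` = general modulus).
-/

set_option autoImplicit false

open scoped Pointwise Topology
open Filter

noncomputable section

namespace Pool.Agent.DS

open Pool.Agent.MuZ Pool.Agent.FW NumberField Pool.Agent.DN
open Pool.Agent.DI (io ofC io_inj exists_io io_ofC ofC_io VP MP UP TP ex sqr sqr_sq kap)

/-! ## Definitions -/

/-- The conditions on the modulus `F` and on `m`. -/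
structure FMg {n t : ℕ} (F : ℕ) (m : Ideal (OO n t)) : Prop where
  pos : 0 < F
  two : 2 ∣ F
  dvd : 15 ∣ F
  ne : m ≠ ⊥
  cop : PrI m F

/-- The conditions on `b`. -/
structure FBg {n t : ℕ} (F : ℕ) (b : Ideal (OO n t)) : Prop where
  ne : b ≠ ⊥
  cop : PrI b F

/-- The conditions on the set `R`. -/
def FRg {n t : ℕ} (F : ℕ) (R : Finset (Ideal (OO n t))) : Prop := ∀ b ∈ R, FBg F b

/-- The minimal level. -/
def levg {n t : ℕ} (F : ℕ) (m : Ideal (OO n t)) (R : Finset (Ideal (OO n t))) : ℕ :=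
  Dk n t * F ^ 2 * (NI m * ∏ b ∈ R, NI b) ^ 3

/-- `N` is a level for `R` (the modulus is `F`). -/
structure IsLg {n t : ℕ} (F : ℕ) (m : Ideal (OO n t)) (R : Finset (Ideal (OO n t))) (N : ℕ) :
    Prop where
  pos : 0 < N
  dvd : levg F m R ∣ N

/-- `l` is a divisor of `F`; for `t = 0` (then all traces are even) also a divisor of `2 F`. -/
def Dvl (t F l : ℕ) : Prop := l ∣ F ∨ (t = 0 ∧ l ∣ 2 * F)

/-! ## Statements -/

/-- Transformation under `Γ_0(N)`, on the values. -/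
def S_C1 : Prop :=
  ∀ (n t : ℕ) [SqN n t] (F N : ℕ) (m b : Ideal (OO n t)), FMg F m → FBg F b → IsLg F m {b} N →
    ∀ (a b' c d : ℤ), G0 N a b' c d → a ≠ 0 ∧ d ≠ 0 ∧ IsCoprime a (N : ℤ) ∧ IsCoprime d (N : ℤ) ∧
      FBg F (sp (a : OO n t) * b) ∧
      ∀ r : ℚ, r.den.Coprime (NI m) → (c : ℚ) * r + d ≠ 0 →
      ((a * r + b') / (c * r + d) : ℚ).den.Coprime (NI m) ∧
      etaM F m b ((a * r + b') / (c * r + d)) =
        (eps n t d : Om) * (rO b (sp (a : OO n t) * b) / a) *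
          (etaM F m (sp (a : OO n t) * b) r - etaM F m (sp (a : OO n t) * b) 0) +
        etaM F m b (b' / d)

/-- Transformation under `Γ_1(N)`, on the upper half plane. -/
def S_C2 : Prop :=
  ∀ (n t : ℕ) [SqN n t] (F N : ℕ) (m b : Ideal (OO n t)), FMg F m → FBg F b → IsLg F m {b} N →
    ∀ (a b' c d : ℤ), G0 N a b' c d → (N : ℤ) ∣ d - 1 → ∀ z : ℂ, 0 < z.im →
      ThM F m b ((a * z + b') / (c * z + d)) =
        ThM F m b z + io (etaM F m b (b' / d) - etaM F m b 0)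

/-- Expansions at all cusps. -/
def S_C3 : Prop :=
  ∀ (n t : ℕ) [SqN n t] (F N : ℕ) (m b : Ideal (OO n t)), FMg F m → FBg F b → IsLg F m {b} N →
    ∀ (a b' c d : ℤ), a * d - b' * c = 1 →
    ∃ (c0 : ℂ) (cf : ℕ → ℂ) (C : ℝ), (∀ j, ‖cf j‖ ≤ C * (j + 1) ^ 3) ∧ ∀ z : ℂ, 0 < z.im →
      HasSum (fun j : ℕ => cf j * ex ((j + 1) * z / (N : ℕ)))
        (ThM F m b ((a * z + b') / (c * z + d)) - c0)

/-- The values: the limit exists for EVERY rational number `r`, also along `g (r + i y)`, `g ∈ SL_2(ℤ)`. -/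
def S_C3v : Prop :=
  ∀ (n t : ℕ) [SqN n t] (F : ℕ) (m b : Ideal (OO n t)), FMg F m → FBg F b →
    (∀ r : ℚ, Tendsto (fun y : ℝ => ThM F m b (r + y * Complex.I)) (𝓝[>] 0) (𝓝 (hM F m b r))) ∧
    ∀ a b' c d : ℤ, a * d - b' * c = 1 → ∀ r : ℚ, (c : ℚ) * r + d ≠ 0 →
      Tendsto (fun y : ℝ => ThM F m b ((a * (r + y * Complex.I) + b') /
        (c * (r + y * Complex.I) + d))) (𝓝[>] 0) (𝓝 (hM F m b ((a * r + b') / (c * r + d))))

/-- The values at `c/q`, `q` prime to `N m`: the limit is algebraic; the formula for `b` prime to `F q`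
(then `(1 + F γ)/(F q)`, `γ ∈ O/q`, are the `z` modulo `Lam b` with `q z = 1/F`). -/
def S_C4 : Prop :=
  ∀ (n t : ℕ) [SqN n t] (F : ℕ) (m b : Ideal (OO n t)), FMg F m → FBg F b → ∀ (c : ℤ) (q : ℕ), 0 < q →
    q.Coprime (NI m) →
    Tendsto (fun y : ℝ => ThM F m b (((c / q : ℚ) : ℂ) + y * Complex.I)) (𝓝[>] 0)
      (𝓝 (hM F m b (c / q))) ∧
    io (etaM F m b (c / q)) = hM F m b (c / q) ∧
    (PrI b q → etaM F m b (c / q) = (1 / q : Om) *
      ∑ x ∈ Finset.range q, ∑ y ∈ Finset.range q,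
        zet q ^ (c * (NI m * NI b * Nm (⟨1 + F * x, F * y⟩ : OO n t))) *
          gO m b (toC (⟨1 + F * x, F * y⟩ : OO n t) / (F * q : ℕ)))

/-- Class functions, period, the periods `1/l`, complex conjugation. -/
def S_C6 : Prop :=
  ∀ (n t : ℕ) [SqN n t] (F : ℕ) (m b : Ideal (OO n t)), FMg F m → FBg F b →
    (∀ b' : Ideal (OO n t), FBg F b' → Ray F b b' →
      (∀ z : ℂ, ThM F m b z = ThM F m b' z) ∧ ∀ r : ℚ, etaM F m b r = etaM F m b' r) ∧
    (∀ r : ℚ, etaM F m b (r + 1) = etaM F m b r ∧ etaM F m b (r + 1 / 2) = -etaM F m b r) ∧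
    (∀ l : ℕ, 0 < l → Dvl t F l →
      (∀ z : ℂ, 0 < z.im → ThM F m b (z + 1 / l) = ex (NI (m * b) / l) * ThM F m b z) ∧
      ∀ r : ℚ, r.den.Coprime (NI m) →
        etaM F m b (r + 1 / l) = zet l ^ NI (m * b) * etaM F m b r) ∧
    (∀ z : ℂ, (starRingEnd ℂ) (ThM F m b z) = ThM F (cjI m) (cjI b) (-(starRingEnd ℂ) z)) ∧
    ∀ c : Gal(Om/ℚ), (∀ x : Om, io (c x) = (starRingEnd ℂ) (io x)) → ∀ r : ℚ,
      r.den.Coprime (NI m) → c (etaM F m b r) = etaM F (cjI m) (cjI b) (-r)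

/-- Holomorphy; the `q`-expansion; the finite sets `vN`; the exponents are congruent to `N(m b)` modulo `l`; the
coefficients are divisible by `F` at the primes `P` which contain `F`. -/
def S_C7 : Prop :=
  ∀ (n t : ℕ) [SqN n t] (F : ℕ) (m b : Ideal (OO n t)), FMg F m → FBg F b →
    DifferentiableOn ℂ (ThM F m b) {z | 0 < z.im} ∧
    (∀ (j : ℕ) (v : ℂ), v ∈ vN F (m * b) j ↔
      v - 1 / (F : ℕ) ∈ Lam (m * b) ∧ ((F : ℕ) : ℝ) ^ 2 * NI (m * b) * ‖v‖ ^ 2 = j) ∧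
    (∀ (j l : ℕ), Dvl t F l → ¬ ((l : ℤ) ∣ (j : ℤ) - NI (m * b)) → vN F (m * b) j = ∅) ∧
    (∃ C : ℝ, ∀ j : ℕ, ‖cM F m b j‖ ≤ C * (j + 1) ^ 2) ∧
    (∀ j : ℕ, io (ofC (cM F m b j)) = cM F m b j ∧
      ∀ P : Ideal ZZ, Npr P → MP P (F : Om) → TP P (F : Om) (ofC (cM F m b j))) ∧
    ∀ z : ℂ, 0 < z.im → HasSum (fun j : ℕ => cM F m b j / fr b * ex (j * z)) (ThM F m b z)

/-- The Galois action on the values. -/
def S_C8 : Prop :=
  ∀ (n t : ℕ) [SqN n t] (F : ℕ) (m b : Ideal (OO n t)), FMg F m → FBg F b → ∀ r : ℚ,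
    r.den.Coprime (NI m) → ∀ τ ∈ GK n t, ∀ a : Ideal (OO n t), Psi τ F a →
      τ (etaM F m b r) = etaM F m (a * b) r

end Pool.Agent.DS
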