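import Pool.Agent.Lib.DN.D.SpecA

/-!
# The global theory for ALL imaginary quadratic fields (`SqN n t`): parts R and D, statements (author helper58)

Namespace `Pool.Agent.DS`, `open Pool.Agent.DN`. The statements have the names and the shape of `DN/Iface.lean`,
`DN/IfaceX.lean`, `DN/D/SpecA.lean`, with `[SqN n t]` instead of `[Ine n t]` (inside `namespace Pool.Agent.DS` the
short names mean these; the others are `DN.S_R1`, ..). The definitions (`OO`, `Lam`, `xO`, `GQ`, `IK`, `Theta`, ..)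
are those of `DN`. Used by `DR` (`p = 2`, `2` ramified) and `DM` (`p = 3`).
-/

set_option autoImplicit false

open scoped Pointwise Topology nonZeroDivisors
open Filter

noncomputable section

namespace Pool.Agent.DS

open Pool.Agent.MuZ Pool.Agent.FW Pool.Agent.DN NumberField IsDedekindDomain
open Pool.Agent.DI (io ofC io_inj exists_io io_ofC ofC_io VP MP UP TP ex sqr sqr_sq kap)

/-! ## Part R: algebraicity, good reduction -/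

/-- The numbers `A1`, `A3`, `X(z)`, `W(z)` are algebraic; complex conjugation on `Om`; the framing and `g`. -/
def S_R1 : Prop :=
  (∀ (n t : ℕ) [SqN n t],
    (∀ b : Ideal (OO n t), G15 b → io (a1O b) = A1 b ∧ io (a3O b) = A3 b ∧
      (∀ z : ℂ, Tor n t z → io (xO b z) = XC b z ∧ io (vO b z) = WC b z) ∧
      ∀ b' : Ideal (OO n t), G15 b' → io (rO b b') = fr b' / fr b ∧ rO b b' ≠ 0) ∧
    ∀ m b : Ideal (OO n t), m ≠ ⊥ → G15 b → PrI m 2 → PrI m 15 → ∀ z : ℂ, Tor n t z →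
      z ∉ Lam (m * b) → io (gO m b z) = gC m b z) ∧
  ∃ c : Gal(Om/ℚ), (∀ x : Om, io (c x) = (starRingEnd ℂ) (io x)) ∧
    ∀ (n t : ℕ) [SqN n t] (b : Ideal (OO n t)), G15 b →
      c (a1O b) = a1O (cjI b) ∧ c (a3O b) = a3O (cjI b) ∧
      ∀ z : ℂ, Tor n t z → c (xO b z) = xO (cjI b) ((starRingEnd ℂ) z) ∧
        c (vO b z) = vO (cjI b) ((starRingEnd ℂ) z)

/-- Injectivity modulo almost all primes. -/
def S_R3 : Prop :=
  ∀ (n t : ℕ) [SqN n t], ∃ B : ℕ, 0 < B ∧ ∀ Q : Ideal ZZ, Npr Q → ¬ MP Q (B : Om) →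
    ∀ b b' : Ideal (OO n t), G15 b → G15 b' → MP Q (a1O b - a1O b') → MP Q (a3O b - a3O b') →
      a1O b = a1O b' ∧ a3O b = a3O b'

/-- GOOD REDUCTION of the model `X` at every prime `Q` not above `15` (the `j`-invariant is integral). -/
def S_GQ : Prop := ∀ (n t : ℕ) [SqN n t] (Q : Ideal ZZ), Npr Q → ¬ MP Q 15 → GQ n t Q

/-! ## Part B over `Om` -/

/-- Part B over `Om`. -/
def S_XOm : Prop := ∀ (n t : ℕ) [SqN n t] (b : Ideal (OO n t)), G15 b → XOm b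

/-! ## Legendre's coordinate, product formula (as in `DN/D/SpecA.lean`, `DN/IfaceX.lean`) -/

/-- The Legendre coordinate at ALL primes `Q` not above `2`: the points of order prime to `Q` (part D or R). -/
def S_Leg : Prop :=
  ∀ (n t : ℕ) [SqN n t] (Q : Ideal ZZ), Npr Q → ¬ MP Q 2 → ∀ b : Ideal (OO n t), b ≠ ⊥ →
    ∀ T T' : ℂ, 2 * T ∈ Lam b → T ∉ Lam b → 2 * T' ∈ Lam b → T' ∉ Lam b → T - T' ∉ Lam b →
    ∀ δ : Ideal (OO n t), δ ≠ ⊥ → ¬ Abv Q δ → ∀ z z' : ℂ, z ∈ Lam (δ * b) → z' ∈ Lam (δ * b) →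
      z ∉ Lam b → z' ∉ Lam b → VP Q (leO b T T' z) ∧
      (MP Q (leO b T T' z - leO b T T' z') → z - z' ∈ Lam b ∨ z + z' ∈ Lam b)

/-- LEGENDRE'S COORDINATE AT ALL PRIMES NOT ABOVE TWO. (1) algebraicity; (2) the values at the points of order two; (3)
the kernel is an `O`-module, it contains `Lam b`; (4) isogenies of odd degree; (5) the kernel is `Q`-primary; (6) congruence;
(7) separation; (8) the kernel does not depend on `T`, `T'`; (9) periods, parity; (10) injectivity. -/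
def S_LgK : Prop :=
  ∀ (n t : ℕ) [SqN n t] (Q : Ideal ZZ), Npr Q → ¬ MP Q 2 → ∀ b : Ideal (OO n t), b ≠ ⊥ →
    ∀ T T' : ℂ, Ord2 b T T' →
    (wpC b T' ≠ wpC b T ∧ ∀ z : ℂ, Tor n t z → z ∉ Lam b →
      io (leO b T T' z) = (wpC b z - wpC b T) / (wpC b T' - wpC b T)) ∧
    (leO b T T' T = 0 ∧ leO b T T' T' = 1 ∧ UP Q (leO b T T' (T + T')) ∧
      UP Q (1 - leO b T T' (T + T'))) ∧
    ((∀ z z' : ℂ, IL Q b T T' z → IL Q b T T' z' → IL Q b T T' (z + z')) ∧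
      (∀ z : ℂ, IL Q b T T' z → IL Q b T T' (-z)) ∧ (∀ z ∈ Lam b, IL Q b T T' z) ∧
      ∀ (v : OO n t) (z : ℂ), IL Q b T T' z → IL Q b T T' (toC v * z)) ∧
    (∀ a : Ideal (OO n t), a ≠ ⊥ → PrI a 2 → Ord2 (a * b) T T' ∧
      ∀ z : ℂ, IL Q b T T' z → IL Q (a * b) T T' z) ∧
    (∀ z : ℂ, IL Q b T T' z → Qp Q b z) ∧
    (∀ z z' : ℂ, Tor n t z → ¬ IL Q b T T' z → IL Q b T T' z' →
      MP Q (leO b T T' (z + z') - leO b T T' z)) ∧
    (∀ z z' : ℂ, Tor n t z → Tor n t z' → ¬ IL Q b T T' z → ¬ IL Q b T T' z' →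
      MP Q (leO b T T' z - leO b T T' z') → IL Q b T T' (z + z') ∨ IL Q b T T' (z - z')) ∧
    (∀ T₁ T₁' : ℂ, Ord2 b T₁ T₁' → ∀ z : ℂ, IL Q b T T' z ↔ IL Q b T₁ T₁' z) ∧
    (∀ z z' : ℂ, (z - z' ∈ Lam b ∨ z + z' ∈ Lam b) → leO b T T' z = leO b T T' z') ∧
    ∀ z z' : ℂ, Tor n t z → Tor n t z' → z ∉ Lam b → z' ∉ Lam b → leO b T T' z = leO b T T' z' →
      z - z' ∈ Lam b ∨ z + z' ∈ Lam b

/-- THE FACTORS OF THETA IN LEGENDRE'S COORDINATE. -/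
def S_LgT : Prop :=
  ∀ (n t : ℕ) [SqN n t] (b : Ideal (OO n t)), G15 b → ∀ T T' : ℂ, Ord2 b T T' →
    ∀ z u : ℂ, Tor n t z → Tor n t u → z ∉ Lam b → u ∉ Lam b →
      W2 b u * ((xO b z - xO b u) ^ 3)⁻¹ =
        4 * leO b T T' u * (leO b T T' u - 1) * (leO b T T' u - leO b T T' (T + T')) *
          ((leO b T T' z - leO b T T' u) ^ 3)⁻¹

open Classical in
/-- THE PRODUCT FORMULA IN `Om`, points of order two; the constant. -/
def S_PrC : Prop :=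
  ∀ (n t : ℕ) [SqN n t] (a b : Ideal (OO n t)), a ≠ ⊥ → G15 b → PrI a 2 → PrI a 15 →
    ∀ R : Finset ℂ, IsSys a b R → ∀ T T' : ℂ, Ord2 b T T' → ∃ C : Om, C ≠ 0 ∧
      C = rO b (a * b) ^ 2 * ∏ u ∈ R, (if u ∈ Lam b then 1 else xO b u - xO b T) ∧
      (∀ z : ℂ, Tor n t z → z ∉ Lam (a * b) → ∏ u ∈ R, (xO b (z + u) - xO b T) =
        C * (xO (a * b) z - xO (a * b) T)) ∧
      ((xO b T' - xO b T) * (xO b (T + T') - xO b T)) ^ NI a =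
        C ^ 2 * ((xO (a * b) T' - xO (a * b) T) * (xO (a * b) (T + T') - xO (a * b) T)) ∧
      Ord2 (a * b) T T' ∧ ∀ Q : Ideal ZZ, GQ n t Q → ¬ MP Q 2 → UP Q C

/-- UNITS AT THE PRIMES OF GOOD REDUCTION NOT ABOVE TWO: the points of order two; the framing. -/
def S_LaU : Prop :=
  ∀ (n t : ℕ) [SqN n t] (b : Ideal (OO n t)), G15 b → ∀ Q : Ideal ZZ, GQ n t Q → ¬ MP Q 2 →
    (∀ T T' : ℂ, Ord2 b T T' → VP Q (xO b T) ∧ UP Q (xO b T' - xO b T) ∧ ¬ IK Q b T ∧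
      ∀ a : Ideal (OO n t), a ≠ ⊥ → PrI a 2 → ∀ u ∈ Lam (a * b), u ∉ Lam b → ¬ IK Q b u →
        UP Q (xO b u - xO b T)) ∧
    ∀ a : Ideal (OO n t), a ≠ ⊥ → PrI a 2 → PrI a 15 → VP Q (rO b (a * b)) ∧
      ((∃ u ∈ Lam (a * b), u ∉ Lam b ∧ IK Q b u) → MP Q (rO b (a * b))) ∧
      ((∀ u ∈ Lam (a * b), u ∉ Lam b → ¬ IK Q b u) → UP Q (rO b (a * b)))

/-! ## Part D -/

/-- The kernel of reduction, at the primes of good reduction of the model. -/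
def S_D1 : Prop :=
  ∀ (n t : ℕ) [SqN n t] (Q : Ideal ZZ), GQ n t Q → ∀ b : Ideal (OO n t), G15 b →
    (∀ z z' : ℂ, IK Q b z → IK Q b z' → IK Q b (z + z')) ∧ (∀ z ∈ Lam b, IK Q b z) ∧
    (∀ (v : OO n t) (z : ℂ), IK Q b z → IK Q b (toC v * z)) ∧
    (∀ (a : Ideal (OO n t)) (z : ℂ), a ≠ ⊥ → PrI a 15 → IK Q b z → IK Q (a * b) z) ∧
    (∀ z : ℂ, IK Q b z → Qp Q b z) ∧
    (∀ z z' : ℂ, Tor n t z → ¬ IK Q b z → IK Q b z' → MP Q (xO b (z + z') - xO b z)) ∧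
    (∀ z z' : ℂ, Tor n t z → Tor n t z' → ¬ IK Q b z → ¬ IK Q b z' → MP Q (xO b z - xO b z') →
      IK Q b (z + z') ∨ IK Q b (z - z'))

/-- Good primes above a prime ideal of degree one: Kronecker's congruence. -/
def S_D3 : Prop :=
  ∀ (n t : ℕ) [SqN n t] (q : Ideal (OO n t)) (l : ℕ), Deg1 q l → l.Coprime 30 → ∀ Q : Ideal ZZ,
    GQ n t Q → Abv Q q → ∀ b : Ideal (OO n t), G15 b →
      (∀ u ∈ Lam (q * b), IK Q b u) ∧ MP Q (a1O (q * b) - a1O b ^ l) ∧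
      MP Q (a3O (q * b) - a3O b ^ l) ∧
      ∀ z : ℂ, Tor n t z → ¬ IK Q b z → ¬ IK Q (q * b) z ∧ MP Q (xO (q * b) z - xO b z ^ l)

/-- The points of order `q` in the kernel have the same valuation: for `q = (la)`, `u ∈ Lam (q b)`,
`u ∉ Lam b`: `la X(u) ^ ((l - 1)/2)` is a unit. -/
def S_D4 : Prop :=
  ∀ (n t : ℕ) [SqN n t] (la : OO n t) (l : ℕ), Deg1 (sp la) l → l.Coprime 30 → ∀ Q : Ideal ZZ,
    GQ n t Q → MP Q (toO la) → ∀ b : Ideal (OO n t), G15 b → ∀ u : ℂ, toC la * u ∈ Lam b →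
      u ∉ Lam b → UP Q (toO la * xO b u ^ ((l - 1) / 2))

/-- Theta units, at all primes. -/
def S_D5 : Prop :=
  ∀ (n t : ℕ) [SqN n t] (m b : Ideal (OO n t)), m ≠ ⊥ → G15 b → PrI m 2 → PrI m 15 →
    ∀ Q : Ideal ZZ, Npr Q → ∀ z : ℂ, Tor n t z → (∀ u ∈ Lam (m * b), ¬ Qp Q b (z + u)) →
      UP Q (Theta m b z)

/-- Theta units: congruences, at the good primes. -/
def S_D6 : Prop :=
  ∀ (n t : ℕ) [SqN n t] (m b : Ideal (OO n t)), m ≠ ⊥ → G15 b → PrI m 2 → PrI m 15 →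
    ∀ Q : Ideal ZZ, GQ n t Q → ¬ MP Q 2 → ¬ Abv Q m → ∀ z : ℂ, Tor n t z →
    (∀ u ∈ Lam (m * b), ¬ Qp Q b (z + u)) →
    (∀ z' : ℂ, IK Q b z' → MP Q (Theta m b (z + z') - Theta m b z)) ∧
    ∀ (q : Ideal (OO n t)) (l : ℕ), Deg1 q l → l.Coprime 30 → Abv Q q →
      MP Q (Theta m (q * b) z - Theta m b z ^ l)

/-- Distribution of `Theta`: exact for odd ideals, up to a sign for `2`. -/
def S_D7 : Prop :=
  ∀ (n t : ℕ) [SqN n t] (m b : Ideal (OO n t)), m ≠ ⊥ → G15 b → PrI m 2 → PrI m 15 →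
    (∀ (l : Ideal (OO n t)) (R : Finset ℂ), l ≠ ⊥ → PrI l 2 → PrI l 15 → l ⊔ m = ⊤ → IsSys l b R →
      ∀ z : ℂ, Tor n t z → z ∉ Lam (l * m * b) →
        ∏ v ∈ R, Theta m b (z + v) = Theta m (l * b) z) ∧
    ∃ s : ℤ, (s = 1 ∨ s = -1) ∧ ∀ R : Finset ℂ, IsSys (sp 2) b R → ∀ z : ℂ, Tor n t z →
      2 * z ∉ Lam (m * b) → ∏ v ∈ R, Theta m b (z + v) = s * Theta m b (2 * z)

/-- `Theta` is a well defined even function. -/
def S_D8 : Prop :=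
  ∀ (n t : ℕ) [SqN n t] (m b : Ideal (OO n t)), m ≠ ⊥ → G15 b → PrI m 2 → PrI m 15 →
    (∀ S : Finset ℂ, IsHalf m b S → ∀ z : ℂ,
      ∏ u ∈ S, (W2 b u * ((xO b z - xO b u) ^ 3)⁻¹) ^ 3 = Theta m b z) ∧
    (∀ z : ℂ, Theta m b (-z) = Theta m b z ∧ ∀ l ∈ Lam b, Theta m b (z + l) = Theta m b z) ∧
    (∀ (α : OO n t) (z : ℂ), α ≠ 0 → Cop α 15 → Tor n t z →
      Theta m (sp α * b) z = Theta m b (toC α * z)) ∧
    ∀ z : ℂ, Tor n t z → z ∉ Lam (m * b) → Theta m b z ≠ 0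

/-- `g` at the primes above `2`. -/
def S_D9 : Prop :=
  ∀ (n t : ℕ) [SqN n t] (P : Ideal ZZ), Ab2 P → ∀ m b : Ideal (OO n t), m ≠ ⊥ → G15 b →
    PrI m 2 → PrI m 15 → ∀ z : ℂ, Tor n t z → (∀ u ∈ Lam (m * b), ¬ Qp P b (z + u)) →
      VP P (gO m b z) ∧ gO m b z = ∑ u ∈ hs m b, vO b z * (xO b z - xO b u)⁻¹

end Pool.Agent.DS
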