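import Pool.Agent.Lib.DS.Iface
import Pool.Agent.Lib.DN.IfaceG

/-!
# Parts G (first half) and H for ALL imaginary quadratic fields: statements (author helper9)

`[SqN n t]` in place of `[Ine n t]`. DIFFERENCE to `DN`: `IsRep` is a system of representatives of `H_N` modulo the UNITS of `O` (for `K = ℚ(i)` the unit `i`
lies in `H_N` and `Θ(b, i z) = Θ(b, z)`; with representatives modulo `± 1` the elliptic unit `uN` would be a square). If the only units of `O` in `H_N` are `± 1`, it is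
the definition of `DN` (`IsRep.of_DN`, `IsRep.to_DN`). `3 ≤ N` in `S_G3`. `uN`, `Theta`, `HN`, `HPN`, `Mn`, `IsDS` are those of `DN`. Used by `DR`.
-/

set_option autoImplicit false

open scoped Pointwise Topology nonZeroDivisors
open Filter

noncomputable section

namespace Pool.Agent.DS

open Pool.Agent.MuZ Pool.Agent.FW NumberField IsDedekindDomain Pool.Agent.DN
open Pool.Agent.DI (io ofC io_inj exists_io io_ofC ofC_io VP MP UP TP ex sqr sqr_sq kap)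

/-- A set of representatives of `H_N` modulo the units of `O` and modulo `f 2^N`. -/
structure IsRep {k t : ℕ} (f N : ℕ) (T : Finset (OO k t)) : Prop where
  mem : ∀ h ∈ T, HN f N h
  ex : ∀ v : OO k t, HN f N v → ∃ h ∈ T, ∃ e : OO k t, Nm e = 1 ∧
    ((f * 2 ^ N : ℕ) : OO k t) ∣ v - e * h
  uni : ∀ h ∈ T, ∀ h' ∈ T, ∀ e : OO k t, Nm e = 1 → ((f * 2 ^ N : ℕ) : OO k t) ∣ h - e * h' → h = h'

theorem IsRep.of_DN {k t f N : ℕ} {T : Finset (OO k t)} (h : DN.IsRep f N T)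
    (hu : ∀ e : OO k t, Nm e = 1 → (∃ v v' : OO k t, HN f N v ∧ HN f N v' ∧
      ((f * 2 ^ N : ℕ) : OO k t) ∣ v - e * v') → e = 1 ∨ e = -1) : IsRep f N T where
  mem := h.mem
  ex := fun v hv => by
    obtain ⟨x, hx, h1 | h1⟩ := h.ex v hv
    · exact ⟨x, hx, 1, Nm_one, by rwa [one_mul]⟩
    · exact ⟨x, hx, -1, by rw [Nm_neg, Nm_one], by rwa [neg_one_mul, sub_neg_eq_add]⟩
  uni := fun x hx y hy e he h1 => by
    rcases hu e he ⟨x, y, h.mem x hx, h.mem y hy, h1⟩ with rfl | rfl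
    · exact h.uni x hx y hy (Or.inl (by rwa [one_mul] at h1))
    · exact h.uni x hx y hy (Or.inr (by rwa [neg_one_mul, sub_neg_eq_add] at h1))

theorem IsRep.to_DN {k t f N : ℕ} {T : Finset (OO k t)} (h : IsRep f N T)
    (hu : ∀ e : OO k t, Nm e = 1 → (∃ v v' : OO k t, HN f N v ∧ HN f N v' ∧
      ((f * 2 ^ N : ℕ) : OO k t) ∣ v - e * v') → e = 1 ∨ e = -1) : DN.IsRep f N T where
  mem := h.mem
  ex := fun v hv => by
    obtain ⟨x, hx, e, he, h1⟩ := h.ex v hv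
    refine ⟨x, hx, ?_⟩
    rcases hu e he ⟨v, x, hv, h.mem x hx, h1⟩ with rfl | rfl
    · exact Or.inl (by rwa [one_mul] at h1)
    · exact Or.inr (by rwa [neg_one_mul, sub_neg_eq_add] at h1)
  uni := fun x hx y hy h1 => by
    rcases h1 with h1 | h1
    · exact h.uni x hx y hy 1 Nm_one (by rwa [one_mul])
    · exact h.uni x hx y hy (-1) (by rw [Nm_neg, Nm_one]) (by rwa [neg_one_mul, sub_neg_eq_add])

/-- Representatives exist. -/
def S_GR : Prop :=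
  ∀ (k t : ℕ) [SqN k t] (f N : ℕ), Odd f → 15 ∣ f → 1 ≤ N → ∃ T : Finset (OO k t), IsRep f N T

/-- The groups `HP`, `HPN`; the fields `L'`, `L'_n`, their Galois groups. -/
def S_GM : Prop :=
  ∀ (k t : ℕ) [SqN k t] (f : ℕ), Odd f → 15 ∣ f →
    (HP f (⊤ : Ideal (OO k t)) ∧ (∀ a : Ideal (OO k t), HP f a → a ≠ ⊥ ∧ PrI a (2 * f)) ∧
      (∀ a a' : Ideal (OO k t), HP f a → Ray (2 * f) a a' → HP f a') ∧
      ∀ a a' : Ideal (OO k t), HP f a → HP f a' → HP f (a * a')) ∧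
    (∀ N : ℕ, 1 ≤ N → HPN f N (⊤ : Ideal (OO k t)) ∧
      (∀ a : Ideal (OO k t), HPN f N a → a ≠ ⊥ ∧ PrI a (f * 2 ^ N)) ∧
      (∀ a a' : Ideal (OO k t), HPN f N a → Ray (f * 2 ^ N) a a' → HPN f N a') ∧
      (∀ a a' : Ideal (OO k t), HPN f N a → HPN f N a' → HPN f N (a * a')) ∧
      ∀ a : Ideal (OO k t), a ≠ ⊥ → PrI a (f * 2 ^ N) → (HPN f N a ↔ HP f a ∧
        ((2 : ℤ) ^ N ∣ (NI a : ℤ) - 1 ∨ (2 : ℤ) ^ N ∣ (NI a : ℤ) + 1))) ∧
    FiniteDimensional ℚ (Mf k t f) ∧ KQ k t ≤ Mf k t f ∧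
    (∀ N : ℕ, 1 ≤ N → FiniteDimensional ℚ (Mn k t f N) ∧ Mf k t f ≤ Mn k t f N ∧
      Mn k t f N ≤ Mn k t f (N + 1)) ∧
    (∀ τ ∈ GK k t, ∀ a : Ideal (OO k t), Psi τ (2 * f) a → ((∀ x ∈ Mf k t f, τ x = x) ↔ HP f a)) ∧
    (∀ (N : ℕ), 1 ≤ N → ∀ τ ∈ GK k t, ∀ a : Ideal (OO k t), Psi τ (f * 2 ^ N) a →
      ((∀ x ∈ Mn k t f N, τ x = x) ↔ HPN f N a)) ∧
    ∀ (N : ℕ) (ζ : Om), 1 ≤ N → IsPrimitiveRoot ζ (2 ^ N) → ∀ τ : Gal(Om/ℚ),
      (∀ x ∈ Mn k t f N, τ x = x) ↔ (∀ x ∈ Mf k t f, τ x = x) ∧ (τ ζ = ζ ∨ τ ζ = ζ⁻¹)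

/-- **G3.** The elliptic units. -/
def S_G3 : Prop :=
  ∀ (k t : ℕ) [SqN k t] (f : ℕ) (m : Ideal (OO k t)) (N : ℕ) (T : Finset (OO k t)), Odd f → 15 ∣ f →
    m ≠ ⊥ → PrI m 2 → PrI m f → 3 ≤ N → IsRep f N T → ∀ b : Ideal (OO k t), b ≠ ⊥ → PrI b (2 * f) →
      uN f N m T b ∈ Mn k t f N ∧ uN f N m T b ≠ 0 ∧
      (∀ Q : Ideal ZZ, Npr Q → UP Q (uN f N m T b)) ∧
      (∀ b' : Ideal (OO k t), Ray (f * 2 ^ N) b b' → uN f N m T b' = uN f N m T b) ∧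
      (∀ a : Ideal (OO k t), HPN f N a → uN f N m T (a * b) = uN f N m T b) ∧
      (∀ τ ∈ GK k t, ∀ a : Ideal (OO k t), Psi τ (f * 2 ^ N) a →
        τ (uN f N m T b) = uN f N m T (a * b)) ∧
      (∀ T' : Finset (OO k t), IsRep f N T' → uN f N m T' b = uN f N m T b) ∧
      ∀ T' : Finset (OO k t), IsRep f (N + 1) T' → ∀ s ∈ GK k t, ∀ a : Ideal (OO k t),
        Psi s (f * 2 ^ (N + 1)) a → HPN f N a → ¬ HPN f (N + 1) a →
          uN f (N + 1) m T' b * s (uN f (N + 1) m T' b) = uN f N m T b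

end Pool.Agent.DS
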