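import Pool.Agent.Lib.DS.IfaceD
import Pool.Agent.Lib.DN.E.SpecB

/-!
# The global theory for ALL imaginary quadratic fields (interface, author helper28)

Statements of part E of Theorem DN (parts R and D: `DS/IfaceD.lean`) with `[SqN n t]` (all imaginary quadratic fields) in place of `[Ine n t]` (`2` is inert). Definitions:
`DN/Defs.lean`, `DN/Iface.lean` (`G15`, `IsSys`, `Deg1`, `Abv`, `GQ`, `IK`, `Qp`), `DN/IfaceX.lean` (`XOm`, `leO`), `DN/E/SpecB.lean` (`HG`, the lemmas `psi_..`).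
The parts O, L, B of DN are already for all fields (`S_O1 - S_O3`, `S_O5 - S_O9`, `S_L1 - S_L5`, `S_B1 - S_B16`; all proved: `aO.., aL.., aB..`), as are
`Eb.aF0, aAbB, aFr, aGn, aH2M, aHPM` (`DN/E/AllB.lean`). Users: DR (`2` ramified), DM (`p = 3` not split). Namespace `Pool.Agent.DS`;
outside this namespace write `DS.S_E1` etc. (`DN.S_E1` is the statement for `Ine`; `of_Ine`-lemmas are not needed: an instance `[Ine n t]` or `[Ram n t]` gives `[SqN n t]`).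
`15 ∣ N` in all Galois statements; for DM take `N` divisible by `60`.
-/

set_option autoImplicit false

open scoped Pointwise Topology nonZeroDivisors
open Filter

noncomputable section

namespace Pool.Agent.DS

open Pool.Agent.MuZ Pool.Agent.FW NumberField IsDedekindDomain Pool.Agent.DN
open Pool.Agent.DI (io ofC io_inj exists_io io_ofC ofC_io VP MP UP TP ex sqr sqr_sq kap)

/-! ## Good reduction, weak form -/


/-- Good reduction of the model `X` at almost all primes (enough for `S_E1` - `S_E3`). -/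
def S_GQB : Prop :=
  ∀ (n t : ℕ) [SqN n t], ∃ B : ℕ, 0 < B ∧ ∀ Q : Ideal ZZ, Npr Q → ¬ MP Q (B : Om) → GQ n t Q

theorem gqB (h : S_GQ) : S_GQB := fun n t _ =>
  ⟨15, by norm_num, fun Q hQ h15 => h n t Q hQ (by simpa using h15)⟩

/-! ## Part E: Galois action -/

/-- Finiteness. -/
def S_FN : Prop :=
  ∀ (n t : ℕ) [SqN n t] (N : ℕ), 0 < N → 15 ∣ N → ∃ A : Set Om, A.Finite ∧
    (∀ b : Ideal (OO n t), G15 b → a1O b ∈ A ∧ a3O b ∈ A) ∧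
    ∀ b : Ideal (OO n t), G15 b → ∀ z : ℂ, (N : ℂ) * z ∈ Lam b → xO b z ∈ A

/-- `S_E1`, item 1. -/
def S_Ex : Prop :=
  ∀ (n t : ℕ) [SqN n t] (N : ℕ), 0 < N → 15 ∣ N → ∀ τ ∈ GK n t,
    ∃ a : Ideal (OO n t), Psi τ N a

/-- The main theorem of complex multiplication, for `Gal(Om/K)`; `15 ∣ N`. -/
def S_E1 : Prop :=
  ∀ (n t : ℕ) [SqN n t] (N : ℕ), 0 < N → 15 ∣ N →
    (∀ τ ∈ GK n t, ∃ a : Ideal (OO n t), Psi τ N a) ∧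
    (∀ (τ : Gal(Om/ℚ)) (a a' : Ideal (OO n t)), Psi τ N a → Psi τ N a' → Ray N a a') ∧
    (∀ (τ : Gal(Om/ℚ)) (a a' : Ideal (OO n t)), Psi τ N a → Ray N a a' → Psi τ N a') ∧
    (∀ (τ τ' : Gal(Om/ℚ)) (a a' : Ideal (OO n t)), Psi τ N a → Psi τ' N a' → Psi (τ * τ') N (a * a')) ∧
    ∀ (τ : Gal(Om/ℚ)) (M : ℕ) (a : Ideal (OO n t)), Psi τ N a → M ∣ N → 15 ∣ M → Psi τ M a

/-- Frobenius elements, almost all degree one primes. -/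
def S_E2 : Prop :=
  ∀ (n t : ℕ) [SqN n t] (N : ℕ), 0 < N → 15 ∣ N → ∃ B : ℕ, 0 < B ∧ ∀ (q : Ideal (OO n t)) (l : ℕ),
    Deg1 q l → l.Coprime B → ∀ Q : Ideal ZZ, Npr Q → Abv Q q → ∀ τ ∈ GK n t, Fro Q l τ → Psi τ N q

/-- Inertia and the torsion prime to `Q`, `Q` not above `2`. -/
def S_E4b : Prop :=
  ∀ (n t : ℕ) [SqN n t] (Q : Ideal ZZ), Npr Q → ¬ MP Q 2 → ∀ τ ∈ GK n t, τ ∈ Q.inertia Gal(Om/ℚ) →
    ∀ (v : OO n t) (b δ : Ideal (OO n t)) (N : ℕ), 0 < N → 30 ∣ N → G15 b → δ ≠ ⊥ →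
      sp (N : OO n t) ≤ δ → ¬ Abv Q δ → (2 : OO n t) ∣ v - 1 → Psi τ N (sp v) →
      ∀ z ∈ Lam (δ * b), wpC b (toC v * z) = wpC b z

/-- The cyclotomic character. -/
def S_E6 : Prop :=
  ∀ (n t : ℕ) [SqN n t] (τ : Gal(Om/ℚ)) (N : ℕ) (a : Ideal (OO n t)), τ ∈ GK n t → 0 < N → 15 ∣ N →
    Psi τ N a → ∀ ζ : Om, ζ ^ N = 1 → τ ζ = ζ ^ NI a

/-- Surjectivity. -/
def S_E7 : Prop :=
  ∀ (n t : ℕ) [SqN n t] (N : ℕ) (a : Ideal (OO n t)), 0 < N → 15 ∣ N → a ≠ ⊥ → PrI a N →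
    ∃ τ ∈ GK n t, Psi τ N a

/-- Galois theory for `FixI`. -/
def S_E8 : Prop :=
  ∀ (n t : ℕ) [SqN n t] (N : ℕ) (H : Ideal (OO n t) → Prop), 0 < N → 15 ∣ N → H ⊤ →
    (∀ a, H a → a ≠ ⊥ ∧ PrI a N) → (∀ a a', H a → Ray N a a' → H a') →
    (∀ a a', H a → H a' → H (a * a')) →
    FiniteDimensional ℚ (FixI N H) ∧ KQ n t ≤ FixI N H ∧
    ∀ τ ∈ GK n t, ∀ a : Ideal (OO n t), Psi τ N a → ((∀ x ∈ FixI N H, τ x = x) ↔ H a)

/-- Complex conjugation: the class of `c τ c⁻¹` is the conjugate class; normality over `ℚ` of `FixI N H`, if `H` is stable under `cjI`. -/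
def S_Cj : Prop :=
  ∃ c : Gal(Om/ℚ), (∀ x : Om, io (c x) = (starRingEnd ℂ) (io x)) ∧ ∀ (n t : ℕ) [SqN n t],
    (∀ τ ∈ GK n t, c * τ * c⁻¹ ∈ GK n t ∧ ∀ (N : ℕ) (a : Ideal (OO n t)), 0 < N → Psi τ N a →
      Psi (c * τ * c⁻¹) N (cjI a)) ∧
    (∀ g : Gal(Om/ℚ), g ∈ GK n t ∨ c * g ∈ GK n t) ∧
    ∀ (N : ℕ) (H : Ideal (OO n t) → Prop), 0 < N → 15 ∣ N → (∀ a a', H a → Ray N a a' → H a') →
      (∀ a, H a → H (cjI a)) → ∀ g : Gal(Om/ℚ), ∀ x ∈ FixI N H, g x ∈ FixI N H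

/-- The fields `Mf`, `Mn`, `Lf`, `Ln` (`f` any positive multiple of `15`) are normal over `ℚ`. -/
def S_E9 : Prop :=
  ∀ (n t : ℕ) [SqN n t] (f : ℕ), 0 < f → 15 ∣ f →
    (∀ τ : Gal(Om/ℚ), ∀ x ∈ Mf n t f, τ x ∈ Mf n t f) ∧
    (∀ (N : ℕ) (τ : Gal(Om/ℚ)), 1 ≤ N → ∀ x ∈ Mn n t f N, τ x ∈ Mn n t f N) ∧
    (∀ τ : Gal(Om/ℚ), ∀ x ∈ Lf n t f, τ x ∈ Lf n t f) ∧
    (∀ (N : ℕ) (τ : Gal(Om/ℚ)), 1 ≤ N → ∀ x ∈ Ln n t f N, τ x ∈ Ln n t f N) ∧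
    Lf n t f ≤ Mf n t f ∧ ∀ N : ℕ, 1 ≤ N → Ln n t f N ≤ Mn n t f N

/-- `Psi` implies `τ ∈ GK`. -/
def S_PsK : Prop :=
  ∀ (n t : ℕ) [SqN n t] (τ : Gal(Om/ℚ)) (N : ℕ) (a : Ideal (OO n t)), 0 < N → 15 ∣ N →
    Psi τ N a → τ ∈ GK n t

/-- Galois action on `W`, the framing, `g` and `Theta`. -/
def S_E10 : Prop :=
  ∀ (n t : ℕ) [SqN n t] (τ : Gal(Om/ℚ)) (N : ℕ) (a : Ideal (OO n t)), 0 < N → 15 ∣ N → Psi τ N a →
    (∀ b : Ideal (OO n t), G15 b →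
      (∀ z : ℂ, (N : ℂ) * z ∈ Lam b → τ (vO b z) = vO (a * b) z) ∧
      ∀ c : Ideal (OO n t), G15 c → τ (rO b c) = rO (a * b) (a * c)) ∧
    ∀ m b : Ideal (OO n t), m ≠ ⊥ → G15 b → PrI m 2 → PrI m 15 → NI m ∣ N →
      ∀ z : ℂ, (N : ℂ) * z ∈ Lam b →
      (z ∉ Lam (m * b) → τ (gO m b z) = gO m (a * b) z) ∧
      τ (Theta m b z) = Theta m (a * b) z

end Pool.Agent.DS
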